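import Pool.Agent.H23.QCF.Lib

/-!
# MP_63b6b1, row KPF: the product formula from the parity
-/

set_option autoImplicit false

open NumberField IsDedekindDomain Pool.Agent.H23.QCF
open Pool.Agent.H32.QC (Sol hil Iso FPl Pl ic hs sqAt HasseConic ProdFormula Prescribed)

namespace Pool.Agent.H19.QCF

theorem pf_PF (h6d : T_B6D) (h6e : T_B6E) (hpf : T_PFIN) : T_PF := by
  intro K _ _ a b ha hb
  have hfin : (PP a b).Finite := (hpf K a b ha hb).1
  have heq : {v : Pl K | hs v a b ≠ 1} = PP a b := by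
    ext v
    exact hs_ne_one_iff v a b
  refine ⟨by rw [heq]; exact hfin, ?_⟩
  have hev : Even (PP a b).ncard := by
    have h := h6d K a b ha hb
    rwa [h6e K, Set.inter_univ] at h
  rw [finprod_eq_prod_of_mulSupport_subset (s := hfin.toFinset) (fun v : Pl K => hs v a b) (by
    rw [hfin.coe_toFinset, ← heq]
    exact fun v hv => hv)]
  have h1 : ∏ v ∈ hfin.toFinset, hs v a b = ∏ v ∈ hfin.toFinset, (-1 : ℤ) :=
    Finset.prod_congr rfl fun v hv => hfin.mem_toFinset.1 hv
  rw [h1, Finset.prod_const, ← Set.ncard_eq_toFinset_card _ hfin]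
  exact hev.neg_one_pow

end Pool.Agent.H19.QCF
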